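import Pool.Agent.MP_542436_nt.Sp.Spec

set_option autoImplicit false

namespace Pool.Agent.MP_542436_nt.H10

open Finset Pool.Agent.MP_542436_nt.Sp

theorem exists_max {d : ℕ} (hd : 0 < d) (u : Fin d → ℤ) : ∃ i, ∀ j, |u j| ≤ |u i| := by
  obtain ⟨i, -, hi⟩ := exists_max_image univ (fun i => |u i|) ⟨⟨0, hd⟩, mem_univ _⟩
  exact ⟨i, fun j => hi j (mem_univ _)⟩

theorem exists_red (a b : ℤ) (hb : b ≠ 0) : ∃ q : ℤ, 2 * |a - q * b| ≤ |b| := by
  have h1 := Int.emod_nonneg a hb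
  have h2 := Int.emod_lt_abs a hb
  have h3 := Int.emod_add_mul_ediv a b
  by_cases h : 2 * (a % b) ≤ |b|
  · exact ⟨a / b, by rw [show a - a / b * b = a % b by linarith, abs_of_nonneg h1]; exact h⟩
  · refine ⟨a / b + b.sign, ?_⟩
    rw [show a - (a / b + b.sign) * b = a % b - |b| by
      rw [← Int.sign_mul_self_eq_abs]; linarith, abs_of_nonpos (by linarith)]
    linarith

/-- simultaneous approximation -/
theorem dirichlet {d : ℕ} (ξ : Fin d → ℤ) (i₁ : Fin d) {M Q : ℕ} (hM : |ξ i₁| = M) (hQ : 0 < Q)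
    (hM0 : 0 < M) :
    ∃ (k : ℕ) (ζ : Fin d → ℤ), 0 < k ∧ k ≤ Q ^ (d - 1) ∧ k * ξ i₁ = M * ζ i₁ ∧
      ∀ j, |k * ξ j - M * ζ j| * Q ≤ M := by
  classical
  have hM' : (0 : ℤ) < M := by exact_mod_cast hM0
  have hQ' : (0 : ℤ) < Q := by exact_mod_cast hQ
  have hz : ∀ k : ℕ, (k * ξ i₁) % M = 0 := fun k =>
    Int.emod_eq_zero_of_dvd (Dvd.dvd.mul_left (by rw [← hM]; exact abs_dvd_self _) _)
  let f : ℕ → Fin d → ℤ := fun k j => ((k * ξ j) % M * Q) / M
  let t : Finset (Fin d → ℤ) := Fintype.piFinset fun j => if j = i₁ then {0} else Ico 0 (Q : ℤ)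
  have hc : t.card = Q ^ (d - 1) := by
    rw [Fintype.card_piFinset, ← mul_prod_erase _ _ (mem_univ i₁), if_pos rfl, card_singleton,
      one_mul, prod_congr rfl (g := fun _ => Q) fun j hj => by
        rw [if_neg (ne_of_mem_erase hj)]; simp, prod_const, card_erase_of_mem (mem_univ _),
      card_univ, Fintype.card_fin]
  obtain ⟨a, ha, b, hb, hab, he⟩ := exists_ne_map_eq_of_card_lt_of_maps_to
    (s := range (Q ^ (d - 1) + 1)) (t := t) (by rw [hc, card_range]; omega) (f := f) fun k _ => by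
      rw [mem_coe, Fintype.mem_piFinset]
      intro j
      split_ifs with h
      · simp [f, h, hz]
      · have h1 := Int.emod_nonneg (k * ξ j) hM'.ne'
        have h2 := Int.emod_lt_of_pos (k * ξ j) hM'
        exact mem_Ico.2 ⟨Int.ediv_nonneg (by positivity) hM'.le,
          Int.ediv_lt_of_lt_mul hM' (by nlinarith)⟩
  wlog h : a < b generalizing a b
  · exact this b hb a ha hab.symm he.symm (by omega)
  have key : ∀ j, ((b - a : ℕ) : ℤ) * ξ j - M * ((b * ξ j) / M - (a * ξ j) / M) =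
      (b * ξ j) % M - (a * ξ j) % M := fun j => by
    rw [Nat.cast_sub h.le]
    linear_combination (Int.emod_add_mul_ediv (a * ξ j) M) - (Int.emod_add_mul_ediv (b * ξ j) M)
  refine ⟨b - a, fun j => (b * ξ j) / M - (a * ξ j) / M, by omega, by
    have := mem_range.1 hb; omega, ?_, fun j => ?_⟩
  · have := key i₁
    rw [hz, hz] at this
    linarith
  · rw [key]
    have e : ((a * ξ j) % M * Q) / M = ((b * ξ j) % M * Q) / M := congrFun he j
    have a1 := Int.emod_add_mul_ediv ((a * ξ j) % M * Q) M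
    have a2 := Int.emod_add_mul_ediv ((b * ξ j) % M * Q) M
    have a3 := Int.emod_nonneg ((a * ξ j) % M * Q) hM'.ne'
    have a4 := Int.emod_lt_of_pos ((a * ξ j) % M * Q) hM'
    have a5 := Int.emod_nonneg ((b * ξ j) % M * Q) hM'.ne'
    have a6 := Int.emod_lt_of_pos ((b * ξ j) % M * Q) hM'
    rw [e] at a1
    rw [← abs_of_pos hQ', ← abs_mul, abs_le]
    constructor <;> linarith

/-- a second vector with small minors -/
theorem second {d : ℕ} (hd : 3 ≤ d) (ξ : Fin d → ℤ) (hp : ∀ κ : ℤ, (∀ i, κ ∣ ξ i) → IsUnit κ)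
    (i₁ : Fin d) {M : ℕ} (hM : |ξ i₁| = M) (h2 : 2 ≤ M) (hm : ∀ j, |ξ j| ≤ M) :
    ∃ (Q : ℕ) (ζ : Fin d → ℤ), M ≤ (2 * Q) ^ (d - 1) ∧ (∃ i j, ξ i * ζ j - ξ j * ζ i ≠ 0) ∧
      ∀ i j, |ξ i * ζ j - ξ j * ζ i| * Q ≤ 2 * M := by
  have hex : ∃ Q : ℕ, M ≤ (Q + 1) ^ (d - 1) :=
    ⟨M, (Nat.le_succ M).trans (Nat.le_self_pow (by omega) _)⟩
  classical
  set Q := Nat.find hex with hQ
  have q1 : M ≤ (Q + 1) ^ (d - 1) := Nat.find_spec hex
  have q0 : 0 < Q := Nat.pos_of_ne_zero fun h => by rw [h] at q1; simp at q1; omega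
  have q2 : Q ^ (d - 1) < M := by
    have := Nat.find_min hex (m := Q - 1) (by omega)
    rwa [Nat.sub_add_cancel q0, not_le] at this
  obtain ⟨k, ζ, k0, k1, k2, k3⟩ := dirichlet ξ i₁ hM q0 (by omega)
  have hM' : (0 : ℤ) < M := by exact_mod_cast (by omega : 0 < M)
  refine ⟨Q, ζ, q1.trans (Nat.pow_le_pow_left (by omega) _), ?_, fun i j => ?_⟩
  · by_contra h
    push Not at h
    have hx : ξ i₁ ≠ 0 := fun e => by rw [e, abs_zero] at hM; omega
    have h3 : ∀ j, (k : ℤ) * ξ j = M * ζ j := fun j =>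
      mul_left_cancel₀ hx (by linear_combination ξ j * k2 - M * h i₁ j)
    obtain ⟨M', hM1⟩ := Nat.gcd_dvd_left M k
    obtain ⟨k', hk1⟩ := Nat.gcd_dvd_right M k
    have g0 : 0 < Nat.gcd M k := Nat.gcd_pos_of_pos_right _ k0
    have hc : Nat.Coprime M' k' := by
      have := Nat.coprime_div_gcd_div_gcd g0
      rwa [Nat.div_eq_of_eq_mul_right g0 hM1, Nat.div_eq_of_eq_mul_right g0 hk1] at this
    have hu := hp M' fun j => by
      refine (Nat.isCoprime_iff_coprime.2 hc).dvd_of_dvd_mul_left ⟨ζ j, ?_⟩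
      have g1 : ((Nat.gcd M k : ℕ) : ℤ) ≠ 0 := by exact_mod_cast g0.ne'
      refine mul_left_cancel₀ g1 ?_
      have e1 : (M : ℤ) = (Nat.gcd M k : ℕ) * M' := by exact_mod_cast hM1
      have e2 : (k : ℤ) = (Nat.gcd M k : ℕ) * k' := by exact_mod_cast hk1
      linear_combination h3 j - ξ j * e2 + ζ j * e1
    have : M' = 1 := by simpa using Int.isUnit_iff_natAbs_eq.1 hu
    rw [this, mul_one] at hM1
    have := Nat.le_of_dvd k0 (Nat.gcd_dvd_right M k)
    omega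
  · refine le_of_mul_le_mul_left ?_ hM'
    have e : (M : ℤ) * |ξ i * ζ j - ξ j * ζ i| =
        |ξ j * (k * ξ i - M * ζ i) - ξ i * (k * ξ j - M * ζ j)| := by
      rw [← abs_of_pos hM', ← abs_mul, abs_of_pos hM']
      congr 1
      ring
    have a1 := abs_sub (ξ j * (k * ξ i - M * ζ i)) (ξ i * (k * ξ j - M * ζ j))
    rw [abs_mul, abs_mul, ← e] at a1
    have a2 := mul_le_mul (hm j) (k3 i) (by positivity) hM'.le
    have a3 := mul_le_mul (hm i) (k3 j) (by positivity) hM'.le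
    have a4 := mul_le_mul_of_nonneg_right a1 (by positivity : (0 : ℤ) ≤ Q)
    nlinarith

/-- reduction of a rank two lattice -/
theorem gauss {d : ℕ} (hd : 0 < d) (ξ ζ : Fin d → ℤ) (h : ∃ i j, ξ i * ζ j - ξ j * ζ i ≠ 0) :
    ∃ (u v : Fin d → ℤ) (i j : Fin d) (x y : ℤ), IsCoprime x y ∧ (∀ k, ξ k = x * u k + y * v k) ∧
      |u i * v j - u j * v i| = |ξ i * ζ j - ξ j * ζ i| ∧ (∀ k, |u k| ≤ |u i|) ∧
      (∀ k, |v k| ≤ |v j|) ∧ 0 < |u i| ∧ |u i| ≤ |v j| ∧ 2 * |v i| ≤ |u i| := by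
  classical
  let G : (Fin d → ℤ) → (Fin d → ℤ) → Prop := fun u v => ∃ x y : ℤ, IsCoprime x y ∧
    (∀ k, ξ k = x * u k + y * v k) ∧ ∀ i j, |u i * v j - u j * v i| = |ξ i * ζ j - ξ j * ζ i|
  have hex : ∃ n : ℕ, ∃ u v, G u v ∧ ∀ k, |u k| ≤ n := by
    obtain ⟨i, hi⟩ := exists_max hd ξ
    exact ⟨(ξ i).natAbs, ξ, ζ, ⟨1, 0, isCoprime_one_left, by simp, fun _ _ => rfl⟩,
      fun k => by simpa using hi k⟩
  obtain ⟨u, v, ⟨x, y, g1, g2, g3⟩, hu⟩ := Nat.find_spec hex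
  obtain ⟨i, hi⟩ := exists_max hd u
  have u0 : u i ≠ 0 := fun e => by
    obtain ⟨a, b, hab⟩ := h
    have z : ∀ k, u k = 0 := fun k => by simpa [e] using hi k
    have := g3 a b
    rw [z, z] at this
    exact hab (by simpa using this.symm)
  obtain ⟨q, hq⟩ := exists_red (v i) (u i) u0
  obtain ⟨j, hj⟩ := exists_max hd fun k => v k - q * u k
  have e : ∀ a b, u a * (v b - q * u b) - u b * (v a - q * u a) = u a * v b - u b * v a :=
    fun a b => by ring
  have c : IsCoprime (x + q * y) y := g1.add_mul_right_left q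
  refine ⟨u, fun k => v k - q * u k, i, j, x + q * y, y, c, fun k => by rw [g2 k]; ring,
    by rw [e, g3], hi, hj, abs_pos.2 u0, ?_, hq⟩
  have := Nat.find_min' hex (m := (v j - q * u j).natAbs) ⟨fun k => v k - q * u k, u,
    ⟨y, x + q * y, c.symm, fun k => by rw [g2 k]; ring, fun a b => by
      rw [← g3, ← e a b, ← abs_neg]; congr 1; ring⟩, fun k => by simpa using hj k⟩
  refine (hu i).trans ?_
  rw [← Int.natCast_natAbs]
  exact_mod_cast this

theorem dir : DirStmt := by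
  intro d hd
  have h8 : (4 : ℝ) ≤ 8 ^ (d - 1) := le_trans (by norm_num) (le_self_pow₀ (by norm_num) (by omega))
  refine ⟨8 ^ (d - 1), by linarith, fun T ξ hT hp ⟨i₂, h2⟩ => ?_⟩
  obtain ⟨i₁, hi⟩ := exists_max (by omega) ξ
  have hM : |ξ i₁| = (ξ i₁).natAbs := (Int.natCast_natAbs _).symm
  set M := (ξ i₁).natAbs
  have hM2 : 2 ≤ M := by have := h2.trans (hi i₂); omega
  obtain ⟨Q, ζ, q1, q2, q3⟩ := second hd ξ hp i₁ hM hM2 fun j => hM ▸ hi j
  obtain ⟨u, v, i, j, x, y, g1, g2, g3, g4, g5, g6, g7, g8⟩ := gauss (by omega) ξ ζ q2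
  have e0 : |u i| = (u i).natAbs := (Int.natCast_natAbs _).symm
  have e1 : |v j| = (v j).natAbs := (Int.natCast_natAbs _).symm
  set n0 := (u i).natAbs
  set n1 := (v j).natAbs
  set m := u i * v j - u j * v i with hm
  have m1 : (n0 : ℤ) * n1 ≤ 2 * |m| := by
    have a1 := abs_sub_abs_le_abs_sub (u i * v j) (u j * v i)
    rw [abs_mul, abs_mul, ← hm] at a1
    rw [← e0, ← e1]
    nlinarith [mul_le_mul (g4 j) (g8.trans g7) (by positivity) g6.le]
  have n0p : (0 : ℤ) < n0 := e0 ▸ g6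
  have n1p : (0 : ℤ) < n1 := e1 ▸ g6.trans_le g7
  have m0 : m ≠ 0 := abs_pos.1 (by nlinarith [mul_pos n0p n1p])
  have hMT : (M : ℝ) ≤ T := by
    have := hT i₁
    rwa [← Int.cast_abs, hM, Int.cast_natCast] at this
  have hξ : ∀ k, |ξ k| ≤ M := fun k => hM ▸ hi k
  have M0 : (0 : ℤ) < M := by omega
  have fin : ∀ (z : ℤ) (n : ℕ), |z| * n ≤ 4 * M → |(z : ℝ)| * n ≤ 8 ^ (d - 1) * T := by
    intro z n h
    have : |(z : ℝ)| * n ≤ 4 * M := by exact_mod_cast h
    have h0 : (0 : ℝ) ≤ M := Nat.cast_nonneg _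
    nlinarith
  refine ⟨fun k => if k.1 = 0 then u k.2 else v k.2, i, n0, n1, x, y, by omega, by omega, ?_, ?_,
    Int.isCoprime_iff_gcd_eq_one.1 g1, by simpa using g2, fin _ _ ?_, fin _ _ ?_, fun a b hab => ?_⟩
  · rw [pbox, Fintype.mem_piFinset]
    rintro ⟨a, k⟩
    by_cases ha : a = 0
    · simp only [ha, true_or, if_true, mem_Icc, ← abs_le]
      exact e0 ▸ g4 k
    · by_cases hk : k = i
      · simp only [ha, hk, or_true, if_true, if_false, mem_Icc, ← abs_le]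
        linarith [abs_nonneg (v i)]
      · simp only [ha, hk, or_false, if_false, mem_Icc, ← abs_le]
        exact e1 ▸ g5 k
  · have a1 : (n0 : ℤ) * n1 * (2 * Q) ≤ 8 * M := by
      have := q3 i j
      rw [← g3] at this
      nlinarith [mul_le_mul_of_nonneg_right m1 (by positivity : (0 : ℤ) ≤ Q)]
    have a2 : (n0 : ℝ) * n1 * (2 * Q) ≤ 8 * M := by exact_mod_cast a1
    have a3 : (M : ℝ) ≤ (2 * Q) ^ (d - 1) := by exact_mod_cast q1
    have a4 := pow_le_pow_left₀ (by positivity) a2 (d - 1)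
    have M1 : (0 : ℝ) < M := by exact_mod_cast M0
    rw [mul_pow _ (2 * (Q : ℝ)), mul_pow 8, show d - 1 = d - 2 + 1 by omega, pow_succ (M : ℝ),
      show d - 2 + 1 = d - 1 by omega, ← mul_assoc] at a4
    refine (le_of_mul_le_mul_right ((mul_le_mul_of_nonneg_left a3 (by positivity)).trans a4)
      M1).trans ?_
    gcongr
  · have a1 : x * m = ξ i * v j - ξ j * v i := by rw [hm, g2 i, g2 j]; ring
    have a2 := abs_sub (ξ i * v j) (ξ j * v i)
    rw [← a1, abs_mul, abs_mul, abs_mul, e1] at a2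
    have a3 := mul_le_mul_of_nonneg_right (hξ i) n1p.le
    have a4 := mul_le_mul (hξ j) (e1 ▸ g5 i) (abs_nonneg _) M0.le
    refine le_of_mul_le_mul_right ?_ n1p
    nlinarith [mul_le_mul_of_nonneg_left m1 (abs_nonneg x)]
  · have a1 : y * m = u i * ξ j - u j * ξ i := by rw [hm, g2 i, g2 j]; ring
    have a2 := abs_sub (u i * ξ j) (u j * ξ i)
    rw [← a1, abs_mul, abs_mul, abs_mul, e0] at a2
    have a3 := mul_le_mul_of_nonneg_left (hξ j) n0p.le
    have a4 := mul_le_mul (e0 ▸ g4 j) (hξ i) (abs_nonneg _) n0p.le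
    refine le_of_mul_le_mul_right ?_ n0p
    nlinarith [mul_le_mul_of_nonneg_left m1 (abs_nonneg y)]
  · have b1 : a * u i + b * v i = 0 := by simpa using hab i
    have b2 : a * u j + b * v j = 0 := by simpa using hab j
    exact ⟨mul_right_cancel₀ m0 (by rw [hm]; linear_combination v j * b1 - v i * b2),
      mul_right_cancel₀ m0 (by rw [hm]; linear_combination u i * b2 - u j * b1)⟩

end Pool.Agent.MP_542436_nt.H10
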